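import Pool.Agent.TH777.EllBC
import Mathlib.AlgebraicGeometry.Geometrically.Irreducible

/-!
# Module UC-IRR: the curve `y² = x⁴ + 4cεx² + 1` over `ℚ[ε]` is geometrically irreducible
-/

open Polynomial CategoryTheory Limits AlgebraicGeometry

open scoped QuadraticAlgebra

set_option autoImplicit false

noncomputable section

namespace Pool.Agent.J6H26.UC

/-- `x⁴ + 1` is squarefree over a field of characteristic zero -/
lemma sqfree (K : Type) [Field K] [CharZero K] :
    Squarefree (X ^ 4 + Polynomial.C 0 * X ^ 2 + 1 : K[X]) := by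
  apply Polynomial.Separable.squarefree
  refine ⟨1, - (Polynomial.C (4 : K)⁻¹ * X), ?_⟩
  have h4 : (Polynomial.C (4 : K)⁻¹ * Polynomial.C 4 : K[X]) = 1 := by
    rw [← Polynomial.C_mul, inv_mul_cancel₀ (by norm_num), Polynomial.C_1]
  have hd : Polynomial.derivative (X ^ 4 + Polynomial.C 0 * X ^ 2 + 1 : K[X]) =
      Polynomial.C 4 * X ^ 3 := by
    have h5 : (Polynomial.C (4 : K) : K[X]) = 4 := map_ofNat _ 4
    simp only [Polynomial.C_0, zero_mul, add_zero, Polynomial.derivative_add,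
      Polynomial.derivative_one, Polynomial.derivative_X_pow]
    rw [h5]
    simp
    exact h5
  rw [hd, Polynomial.C_0]
  linear_combination (- X ^ 4 : K[X]) * h4

/-- `p² = (x⁴ + 1) q²` only for `q = 0` -/
lemma im_zero (K : Type) [Field K] [CharZero K] (p q : K[X])
    (h : p ^ 2 = (X ^ 4 + Polynomial.C 0 * X ^ 2 + 1 : K[X]) * q ^ 2) : q = 0 := by
  by_contra hq
  have h1 : q ^ 2 ∣ p ^ 2 := ⟨_, by rw [h, mul_comm]⟩
  obtain ⟨r, hr⟩ := (IsIntegrallyClosed.pow_dvd_pow_iff (two_ne_zero)).1 h1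
  have h2 : (X ^ 4 + Polynomial.C 0 * X ^ 2 + 1 : K[X]) = r * r := by
    have h3 : q ^ 2 * (X ^ 4 + Polynomial.C 0 * X ^ 2 + 1 : K[X]) = q ^ 2 * (r * r) := by
      rw [mul_comm, ← h, hr]
      ring
    exact mul_left_cancel₀ (pow_ne_zero 2 hq) h3
  have h3 : IsUnit r := sqfree K r ⟨1, by rw [h2, mul_one]⟩
  have h4 : IsUnit (X ^ 4 + Polynomial.C 0 * X ^ 2 + 1 : K[X]) := by
    rw [h2]
    exact h3.mul h3
  have h5 := Polynomial.natDegree_eq_zero_of_isUnit h4
  have h6 : (X ^ 4 + Polynomial.C 0 * X ^ 2 + 1 : K[X]).natDegree = 4 := by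
    rw [Polynomial.C_0, zero_mul, add_zero, ← Polynomial.C_1]
    exact Polynomial.natDegree_X_pow_add_C
  omega

/-- the coordinate ring of the affine curve `y² = x⁴ + 1` is a domain -/
lemma domEA (K : Type) [Field K] [CharZero K] :
    IsDomain (QuadraticAlgebra K[X] (X ^ 4 + Polynomial.C 0 * X ^ 2 + 1) 0) := by
  have hN : ∀ z : QuadraticAlgebra K[X] (X ^ 4 + Polynomial.C 0 * X ^ 2 + 1) 0,
      z.re ^ 2 - (X ^ 4 + Polynomial.C 0 * X ^ 2 + 1 : K[X]) * z.im ^ 2 = 0 → z = 0 := by
    intro z hz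
    have h1 := im_zero K z.re z.im (by linear_combination hz)
    rw [h1] at hz
    ext1
    · have : z.re ^ 2 = 0 := by linear_combination hz
      simpa using this
    · exact h1
  have : NoZeroDivisors (QuadraticAlgebra K[X] (X ^ 4 + Polynomial.C 0 * X ^ 2 + 1) 0) := by
    refine ⟨?_⟩
    intro z w hzw
    have h1 := congrArg QuadraticAlgebra.re hzw
    have h2 := congrArg QuadraticAlgebra.im hzw
    simp only [QuadraticAlgebra.re_mul, QuadraticAlgebra.im_mul, QuadraticAlgebra.re_zero,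
      QuadraticAlgebra.im_zero, zero_mul, add_zero] at h1 h2
    have h3 : (z.re ^ 2 - (X ^ 4 + Polynomial.C 0 * X ^ 2 + 1 : K[X]) * z.im ^ 2) *
        (w.re ^ 2 - (X ^ 4 + Polynomial.C 0 * X ^ 2 + 1 : K[X]) * w.im ^ 2) = 0 := by
      linear_combination (z.re * w.re + (X ^ 4 + Polynomial.C 0 * X ^ 2 + 1 : K[X]) * z.im * w.im) * h1 -
        (X ^ 4 + Polynomial.C 0 * X ^ 2 + 1 : K[X]) * (z.re * w.im + z.im * w.re) * h2
    rcases mul_eq_zero.1 h3 with h | h
    · exact Or.inl (hN z h)
    · exact Or.inr (hN w h)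
  have : Nontrivial (QuadraticAlgebra K[X] (X ^ 4 + Polynomial.C 0 * X ^ 2 + 1) 0) :=
    ⟨0, 1, fun h => zero_ne_one (congrArg QuadraticAlgebra.re h)⟩
  exact NoZeroDivisors.to_isDomain _

/-- a space covered by two irreducible open subsets with a common point is irreducible -/
lemma irr_union {T : Type} [TopologicalSpace T] (U V : Set T) (hU : IsIrreducible U)
    (hV : IsIrreducible V) (hUo : IsOpen U) (h : (V ∩ U).Nonempty) (hc : U ∪ V = Set.univ) :
    IrreducibleSpace T := by
  rw [irreducibleSpace_def]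
  have h1 : V ⊆ closure (V ∩ U) :=
    subset_closure_inter_of_isPreirreducible_of_isOpen hV.isPreirreducible hUo h
  have h2 : closure U = Set.univ := by
    apply Set.eq_univ_of_univ_subset
    rw [← hc]
    exact Set.union_subset subset_closure (h1.trans (closure_mono Set.inter_subset_right))
  have h3 : IsIrreducible (Set.univ : Set T) := h2 ▸ hU.closure
  exact h3

open Pool.Agent.TH123

/-- the projective curve `y² = x⁴ + 1` over a field of characteristic zero is irreducible -/
lemma ellIrr (K : Type) [Field K] [CharZero K] : IrreducibleSpace (Ell K 0) := by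
  have hd : IsDomain (EA K 0) := domEA K
  have hS : IrreducibleSpace (Spec (.of (EA K 0))) :=
    inferInstanceAs (IrreducibleSpace (PrimeSpectrum (EA K 0)))
  have hn : Nontrivial (EC K 0) := ⟨0, 1, fun h => zero_ne_one (congrArg QuadraticAlgebra.re h)⟩
  have hC : Nonempty (Spec (.of (EC K 0))) :=
    inferInstanceAs (Nonempty (PrimeSpectrum (EC K 0)))
  have i0 : IsOpenImmersion (ec0 K 0) :=
    inferInstanceAs (IsOpenImmersion (pushout.inl (sk0 K 0) (sk1 K 0)))
  refine irr_union (Set.range (ec0 K 0)) (Set.range (ec1 K 0)) ?_ ?_ ?_ ?_ ?_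
  · rw [← Set.image_univ]
    exact (IrreducibleSpace.isIrreducible_univ _).image _ (ec0 K 0).continuous.continuousOn
  · rw [← Set.image_univ]
    exact (IrreducibleSpace.isIrreducible_univ _).image _ (ec1 K 0).continuous.continuousOn
  · exact (ec0 K 0).isOpenEmbedding.isOpen_range
  · obtain ⟨u⟩ := hC
    refine ⟨ec1 K 0 (sk1 K 0 u), ⟨_, rfl⟩, ⟨sk0 K 0 u, ?_⟩⟩
    rw [← Scheme.Hom.comp_apply, ← Scheme.Hom.comp_apply, ec_comm]
  · apply Set.eq_univ_of_forall
    intro x
    exact push_cover _ _ x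

/-- the curve `y² = x⁴ + 4cεx² + 1` over `ℚ[ε]` is geometrically irreducible -/
theorem irr (c : ℚ) : GeometricallyIrreducible (ellS R1 (ee c)) := by
  rw [geometricallyIrreducible_iff, geometrically_iff_of_commRing]
  intro K _ _ Y fst snd h
  have hz : algebraMap R1 K (ee c) = 0 := by
    have h1 : ee c * ee c = 0 := by
      ext <;> simp [ee]
    have h2 := congrArg (algebraMap R1 K) h1
    rw [map_mul, map_zero] at h2
    exact mul_self_eq_zero.1 h2
  have hc : CharZero K :=
    charZero_of_injective_ringHom ((algebraMap R1 K).comp (dp ℚ)).injective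
  obtain ⟨m, hm, -⟩ := ell_bc (algebraMap R1 K) (ee c) 0 hz
  have hI := ellIrr K
  let i : Y ≅ Ell K 0 := h.isoIsPullback _ _ hm
  exact i.hom.homeomorph.irreducibleSpace_iff.2 hI

end Pool.Agent.J6H26.UC
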