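import Pool.Agent.TH541.J544.PD

/-! # UC-PROD: projectivity data for fibre products over an affine base -/

open CategoryTheory Limits AlgebraicGeometry Opposite TopologicalSpace

set_option autoImplicit false

noncomputable section

namespace Pool.Agent.J6H26.UC

open Pool.Agent.TH541.J544 (PD)

lemma affine_prod_opens {S E F : Scheme.{0}} [IsAffine S] (f : E ⟶ S) (g : F ⟶ S)
    {U : E.Opens} {V : F.Opens} (hU : IsAffineOpen U) (hV : IsAffineOpen V) :
    IsAffineOpen (pullback.fst f g ⁻¹ᵁ U ⊓ pullback.snd f g ⁻¹ᵁ V) := by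
  have : IsAffine U := hU
  have : IsAffine V := hV
  let m := pullback.map (U.ι ≫ f) (V.ι ≫ g) f g U.ι V.ι (𝟙 S) (by simp) (by simp)
  have h1 : IsOpenImmersion m := inferInstance
  have h2 := isAffineOpen_opensRange m
  have h3 : pullback.fst f g ⁻¹ᵁ U ⊓ pullback.snd f g ⁻¹ᵁ V = m.opensRange := by
    have h4 : pullback.fst f g ⁻¹ᵁ (U.ι.opensRange) ⊓ pullback.snd f g ⁻¹ᵁ (V.ι.opensRange) =
        m.opensRange :=
      TopologicalSpace.Opens.ext (Scheme.Pullback.range_map _ _ _ _ _ _ _ _ _).symm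
    rwa [Scheme.Opens.opensRange_ι, Scheme.Opens.opensRange_ι] at h4
  rw [h3]
  exact h2

theorem prod_pd {B Z E : Scheme.{0}} [IsAffine B] (z : Z ⟶ B) (e : E ⟶ B)
    (hz : ∃ (ι : Type) (_ : Finite ι) (U : ι → Z.Opens) (g : ∀ i : ι, ι → Γ(Z, U i)),
      (∀ i, IsAffineOpen (U i)) ∧ Pool.Agent.TH541.J544.PD Z U g)
    (he : ∃ (ι : Type) (_ : Finite ι) (U : ι → E.Opens) (g : ∀ i : ι, ι → Γ(E, U i)),
      (∀ i, IsAffineOpen (U i)) ∧ Pool.Agent.TH541.J544.PD E U g) :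
    ∃ (ι : Type) (_ : Finite ι) (U : ι → (pullback z e).Opens)
      (g : ∀ i : ι, ι → Γ(pullback z e, U i)),
      (∀ i, IsAffineOpen (U i)) ∧ Pool.Agent.TH541.J544.PD (pullback z e) U g := by
  obtain ⟨ι, hι, U, g, hU, hPU⟩ := hz
  obtain ⟨κ, hκ, V, k, hV, hPV⟩ := he
  exact ⟨ι × κ, inferInstance, _, _, fun p => affine_prod_opens z e (hU p.1) (hV p.2),
    (hPU.pull (pullback.fst z e)).prod (hPV.pull (pullback.snd z e))⟩

end Pool.Agent.J6H26.UC
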