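import Pool.Agent.Y141.LT.GeoK

/-!
# Module UC-SEC: the structure morphism of `Xk k` has a section
-/

open CategoryTheory Limits Opposite AlgebraicGeometry TensorProduct Polynomial

set_option autoImplicit false
set_option backward.isDefEq.respectTransparency false

noncomputable section

namespace Pool.Agent.J6H26.UC

open Pool.Agent.TH123 Pool.Agent.Y141.LT

/-- evaluation at the point `x = 0`, `y = 1` -/
def evh (F : Type) [Field F] : CA F →ₐ[F] F where
  toFun z := z.re.eval 0 + z.im.eval 0
  map_one' := by
    have h1 : QuadraticAlgebra.re (1 : CA F) = 1 := rfl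
    have h2 : QuadraticAlgebra.im (1 : CA F) = 0 := rfl
    rw [h1, h2, eval_one, eval_zero, add_zero]
  map_zero' := by
    have h1 : QuadraticAlgebra.re (0 : CA F) = 0 := rfl
    have h2 : QuadraticAlgebra.im (0 : CA F) = 0 := rfl
    rw [h1, h2, eval_zero, add_zero]
  map_add' z w := by
    simp only [QuadraticAlgebra.re_add, QuadraticAlgebra.im_add, eval_add]
    ring
  map_mul' z w := by
    simp only [QuadraticAlgebra.re_mul, QuadraticAlgebra.im_mul, eval_add, eval_mul, eval_pow,
      eval_X, eval_one, eval_zero]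
    ring
  commutes' c := by
    have h1 : QuadraticAlgebra.re (1 : CA F) = 1 := rfl
    have h2 : QuadraticAlgebra.im (1 : CA F) = 0 := rfl
    rw [Algebra.algebraMap_eq_smul_one, QuadraticAlgebra.re_smul, QuadraticAlgebra.im_smul, h1, h2,
      eval_smul, smul_zero, eval_one, eval_zero, add_zero, smul_eq_mul, mul_one]
    rfl

/-- evaluation at both factors -/
def evv (F : Type) [Field F] : CA F ⊗[F] CA F →ₐ[F] F :=
  Algebra.TensorProduct.lift (evh F) (evh F) fun _ _ => Commute.all _ _

/-- The structure morphism of the deformation has a section. -/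
theorem sec_exists (k : Type) [Field k] [CharZero k] :
    ∃ s : Spec (.of (DualNumber k)) ⟶ Pool.Agent.Y141.LT.Xk k, s ≫ Pool.Agent.Y141.LT.xkS k = 𝟙 _ := by
  refine ⟨Spec.map (CommRingCat.ofHom (dm (evv k : CA k ⊗[k] CA k →+* k))) ≫ xck k k 0 0, ?_⟩
  rw [Category.assoc, xck_S, ← Spec.map_comp, ← CommRingCat.ofHom_comp, dm_comp]
  have h : (evv k : CA k ⊗[k] CA k →+* k).comp (kA k k) = RingHom.id k := by
    ext c
    show evv k (algebraMap k (CA k ⊗[k] CA k) (algebraMap k k c)) = c
    rw [AlgHom.commutes]
    rfl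
  rw [h]
  have h2 : dm (RingHom.id k) = RingHom.id (DualNumber k) := by
    refine RingHom.ext fun x => ?_
    rfl
  rw [h2]
  exact Spec.map_id _

end Pool.Agent.J6H26.UC
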